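import Mathlib
import Pool.Agent.H65.AP.Targets
import Pool.Agent.H27.IC.SIG

/-!
# Global good sign functions on the complement of the crack
-/

open MeasureTheory Set Filter Topology Metric
open scoped ENNReal NNReal ContDiff RealInnerProductSpace

namespace Pool.Agent.H85.AP

open Pool.Agent.H94.IC Pool.Agent.H94.AC Pool.Agent.H92.CK Pool.Agent.H65.AP

theorem gr_mem {Y : Set E} {p : E} (h : GrPt Y p) : p ∈ Y := by
  obtain ⟨T, r, h, g, hG⟩ := h
  have hp : p ∈ Bx T p r h := by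
    have h1 := hG.rpos
    have h2 := hG.hpos
    refine ⟨?_, ?_, ?_⟩ <;> simpa
  rw [hG.eq p hp]
  simp [hG.zero]

theorem good_mono {Y W W' : Set E} {s : E → ℤˣ} (h : Good Y W s) (hW : W' ⊆ W) : Good Y W' s :=
  ⟨fun x hx => h.lc x ⟨hW hx.1, hx.2⟩, fun p hp hg => h.flip p (hW hp) hg⟩

theorem good_one {Y W : Set E} (hW : Disjoint W Y) : Good Y W (fun _ => 1) :=
  ⟨fun _ _ => Filter.Eventually.of_forall fun _ => rfl,
    fun _ hp hg => absurd (gr_mem hg) (Set.disjoint_left.mp hW hp)⟩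

theorem pf_SGQ (hSSH : T_SSH) (hGLS : T_GLS) (hLFT : T_LFT) (hSGM : T_SGM) (hANL : T_ANL) :
    T_SGQ := by
  intro Ω S Yi H r r1 s0 hDom hS hne hSO hr hs0 h2 hY hAN hgap hP hend
  have hd : Continuous fun x : E => infDist x (frontier Ω) := continuous_infDist_pt _
  have nlt : ∀ (a : ℝ) (p : E), infDist p (frontier Ω) < a →
      {x : E | infDist x (frontier Ω) < a} ∈ 𝓝 p := fun a p hp =>
    (isOpen_lt hd continuous_const).mem_nhds hp
  have ngt : ∀ (a : ℝ) (p : E), a < infDist p (frontier Ω) →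
      {x : E | a < infDist x (frontier Ω)} ∈ 𝓝 p := fun a p hp =>
    (isOpen_lt continuous_const hd).mem_nhds hp
  obtain ⟨O, hO⟩ : ∃ O : Set E, O = {x | x ∈ Yi ∧ infDist x (frontier Ω) < s0} := ⟨_, rfl⟩
  obtain ⟨Y1, hY1⟩ : ∃ Y1 : Set E, Y1 = {x | x ∈ Yi ∧ 2 * s0 < infDist x (frontier Ω)} := ⟨_, rfl⟩
  have mO : ∀ x, x ∈ O ↔ x ∈ Yi ∧ infDist x (frontier Ω) < s0 := fun x => by rw [hO]; rfl
  have mY : ∀ x, x ∈ Y1 ↔ x ∈ Yi ∧ 2 * s0 < infDist x (frontier Ω) := fun x => by rw [hY1]; rfl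
  have hUn : Y1 ∪ O = Yi := by
    ext x
    rw [Set.mem_union, mO, mY]
    constructor
    · rintro (h | h) <;> exact h.1
    · intro hx
      rcases lt_or_ge (infDist x (frontier Ω)) s0 with h | h
      · exact Or.inr ⟨hx, h⟩
      · exact Or.inl ⟨hx, hgap x hx h⟩
  -- the neighbourhoods where one of the sets is empty
  have eO : ∀ p, s0 < infDist p (frontier Ω) → ∃ N ∈ 𝓝 p, O ∩ N = ∅ := fun p hp =>
    ⟨_, ngt s0 p hp, by
      ext x
      simp only [Set.mem_inter_iff, mO, Set.mem_ofPred_eq, Set.mem_empty_iff_false, iff_false]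
      rintro ⟨⟨_, h⟩, h'⟩
      linarith⟩
  have eY : ∀ p, infDist p (frontier Ω) < 2 * s0 → ∃ N ∈ 𝓝 p, Y1 ∩ N = ∅ := fun p hp =>
    ⟨_, nlt (2 * s0) p hp, by
      ext x
      simp only [Set.mem_inter_iff, mY, Set.mem_ofPred_eq, Set.mem_empty_iff_false, iff_false]
      rintro ⟨⟨_, h⟩, h'⟩
      linarith⟩
  have eN : ∀ p, p ∉ S → p ∉ Yi → ∃ N ∈ 𝓝 p, Yi ∩ N = ∅ := fun p hp hpY =>
    ⟨{y | y ∉ Yi}, Pool.Agent.H27.IC.an_closed (hAN p hp) hpY, by
      ext x
      simp only [Set.mem_inter_iff, Set.mem_ofPred_eq, Set.mem_empty_iff_false, iff_false]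
      rintro ⟨h, h'⟩
      exact h' h⟩
  have sO : O ⊆ Yi := fun x hx => ((mO x).1 hx).1
  have sY : Y1 ⊆ Yi := fun x hx => ((mY x).1 hx).1
  have emp : ∀ {A B N : Set E}, A ⊆ B → B ∩ N = ∅ → A ∩ N = ∅ := fun hAB hB =>
    Set.subset_eq_empty (Set.inter_subset_inter_left _ hAB) hB
  have anO : ∀ p, AN O p := by
    intro p
    rcases lt_or_ge s0 (infDist p (frontier Ω)) with h | h
    · obtain ⟨N, hN, he⟩ := eO p h
      exact (hANL Yi O N p hN).2.1 he
    have hpS : p ∉ S := fun hp => by linarith [hr p hp]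
    rcases h.lt_or_eq with h | h
    · refine (hANL Yi O _ p (nlt s0 p h)).1 ?_ (hAN p hpS)
      ext x
      simp only [Set.mem_inter_iff, mO, Set.mem_ofPred_eq]
      tauto
    · have hpY : p ∉ Yi := fun hp => by linarith [hgap p hp h.ge]
      obtain ⟨N, hN, he⟩ := eN p hpS hpY
      exact (hANL Yi O N p hN).2.1 (emp sO he)
  have anY : ∀ p, p ∉ S → AN Y1 p := by
    intro p hpS
    rcases lt_or_ge (2 * s0) (infDist p (frontier Ω)) with h | h
    · refine (hANL Yi Y1 _ p (ngt (2 * s0) p h)).1 ?_ (hAN p hpS)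
      ext x
      simp only [Set.mem_inter_iff, mY, Set.mem_ofPred_eq]
      tauto
    by_cases hpY : p ∈ Yi
    · have h3 : infDist p (frontier Ω) < s0 := by
        by_contra hc
        linarith [hgap p hpY (not_lt.mp hc)]
      obtain ⟨N, hN, he⟩ := eY p (by linarith)
      exact (hANL Yi Y1 N p hN).2.1 he
    · obtain ⟨N, hN, he⟩ := eN p hpS hpY
      exact (hANL Yi Y1 N p hN).2.1 (emp sY he)
  have hSo : IsOpen Sᶜ := hS.isClosed.isOpen_compl
  obtain ⟨sO', hsO⟩ := hGLS E univ O (fun W s => Good O W s) 0 isOpen_univ (mem_univ _)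
    (starConvex_univ _) (hSSH univ O isOpen_univ fun p _ => anO p)
  have hVo : IsOpen (Sᶜ \ Y1) := by
    rw [isOpen_iff_mem_nhds]
    intro x hx
    filter_upwards [hSo.mem_nhds hx.1, Pool.Agent.H27.IC.an_closed (anY x hx.1) hx.2] with y h1 h2'
    exact ⟨h1, h2'⟩
  obtain ⟨s1, hs1⟩ := hLFT Sᶜ Y1 (Sᶜ \ Y1) (fun W s => Good Y1 W s) H (fun _ => 1) hSo
    (hSSH Sᶜ Y1 hSo fun p hp => anY p hp) hP.cont (fun x hx => hP.zero x hx)
    (fun t ht x hx => hP.out t ht x hx) hVo sdiff_subset (fun x hx => ⟨hP.out 1 ⟨zero_le_one, le_rfl⟩ x hx,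
      fun hY' => by
        have h3 := (mY _).1 hY'
        linarith [hend x hx h3.1, h3.2]⟩) (good_one disjoint_sdiff_left)
  refine ⟨fun x => s1 x * sO' x, ?_⟩
  rw [← hUn]
  exact hSGM Y1 O Sᶜ s1 sO' hSo (fun p hp => anY p hp) (fun p _ => anO p) (fun p _ => by
    rcases lt_or_ge (infDist p (frontier Ω)) (2 * s0) with h | h
    · obtain ⟨N, hN, he⟩ := eY p h
      exact ⟨N, hN, Or.inl he⟩
    · obtain ⟨N, hN, he⟩ := eO p (by linarith)
      exact ⟨N, hN, Or.inr he⟩) hs1 (good_mono hsO (subset_univ _))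

end Pool.Agent.H85.AP
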